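import Pool.Agent.Helper80.EC_F.Goals

/-! Packet INT1 of MP_ecc237_nt, Part F: integration by parts. -/

set_option autoImplicit false

open MeasureTheory Filter Topology Set

namespace EC237.PF.PkINT1

theorem exp_neg_div_le {a y : ℝ} (ha : 0 < a) (hy : 0 < y) :
    Real.exp (-(a / y)) ≤ 2 * y ^ 2 / a ^ 2 := by
  have h1 : 0 < a / y := div_pos ha hy
  have h2 := Real.quadratic_le_exp_of_nonneg h1.le
  have h3 : (a / y) ^ 2 / 2 ≤ Real.exp (a / y) := by nlinarith
  have h4 : 0 < (a / y) ^ 2 / 2 := by positivity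
  rw [Real.exp_neg, show 2 * y ^ 2 / a ^ 2 = ((a / y) ^ 2 / 2)⁻¹ by field_simp]
  exact inv_anti₀ h4 h3

theorem exp_split (a b y : ℝ) :
    Real.exp (-(a / y) - b * y) = Real.exp (-(a / y)) * Real.exp (-(b * y)) := by
  rw [← Real.exp_add]
  congr 1

theorem contOn_exp (a b : ℝ) : ContinuousOn (fun y : ℝ => Real.exp (-(a / y) - b * y)) (Ioi 0) := by
  refine Real.continuous_exp.comp_continuousOn ?_
  refine ContinuousOn.sub (ContinuousOn.neg ?_) (by fun_prop)
  exact continuousOn_const.div continuousOn_id fun y hy => (ne_of_gt hy)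

theorem integrable_pow (k : ℕ) {b : ℝ} (hb : 0 < b) :
    IntegrableOn (fun y : ℝ => y ^ k * Real.exp (-(b * y))) (Ioi 0) := by
  have hk : (-1 : ℝ) < (k : ℝ) := by
    have : (0:ℝ) ≤ k := Nat.cast_nonneg k
    linarith
  have h := integrableOn_rpow_mul_exp_neg_mul_rpow (p := 1) (s := (k : ℝ)) (b := b) hk one_pos hb
  refine h.congr_fun (fun y _ => ?_) measurableSet_Ioi
  dsimp only
  rw [Real.rpow_natCast, Real.rpow_one, neg_mul]

theorem integrable_f (a : ℝ) {b : ℝ} (ha : 0 < a) (hb : 0 < b) :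
    IntegrableOn (fun y : ℝ => y * Real.exp (-(a / y) - b * y)) (Ioi 0) := by
  refine Integrable.mono' (integrable_pow 1 hb) ?_ ?_
  · exact (continuousOn_id.mul (contOn_exp a b)).aestronglyMeasurable measurableSet_Ioi
  · filter_upwards [ae_restrict_mem measurableSet_Ioi] with y hy
    have hy' : (0:ℝ) < y := hy
    have h1 : Real.exp (-(a / y)) ≤ 1 := Real.exp_le_one_iff.2 (by
      have : 0 < a / y := div_pos ha hy'
      linarith)
    rw [exp_split, Real.norm_eq_abs, abs_of_nonneg (by positivity), pow_one]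
    refine mul_le_mul_of_nonneg_left ?_ hy'.le
    exact mul_le_of_le_one_left (Real.exp_pos _).le h1

theorem integrable_g (a : ℝ) {b : ℝ} (ha : 0 < a) (hb : 0 < b) :
    IntegrableOn (fun y : ℝ => (1 + b * y) / y ^ 2 * Real.exp (-(a / y) - b * y)) (Ioi 0) := by
  have h0 : IntegrableOn (fun y : ℝ => (2 / a ^ 2) * (y ^ 0 * Real.exp (-(b * y))) +
      (2 / a ^ 2 * b) * (y ^ 1 * Real.exp (-(b * y)))) (Ioi 0) :=
    ((integrable_pow 0 hb).const_mul _).add ((integrable_pow 1 hb).const_mul _)
  refine Integrable.mono' h0 ?_ ?_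
  · refine ((ContinuousOn.div (by fun_prop) (by fun_prop) fun y hy => ?_).mul
      (contOn_exp a b)).aestronglyMeasurable measurableSet_Ioi
    have : (y:ℝ) ≠ 0 := ne_of_gt hy
    positivity
  · filter_upwards [ae_restrict_mem measurableSet_Ioi] with y hy
    have hy' : (0:ℝ) < y := hy
    have h1 := exp_neg_div_le ha hy'
    rw [exp_split, Real.norm_eq_abs, abs_of_nonneg (by positivity), pow_one, pow_zero]
    calc (1 + b * y) / y ^ 2 * (Real.exp (-(a / y)) * Real.exp (-(b * y)))
        ≤ (1 + b * y) / y ^ 2 * ((2 * y ^ 2 / a ^ 2) * Real.exp (-(b * y))) := by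
          gcongr
      _ = 2 / a ^ 2 * (1 * Real.exp (-(b * y))) + 2 / a ^ 2 * b * (y * Real.exp (-(b * y))) := by
          field_simp

/-- The primitive. -/
noncomputable def U (a b y : ℝ) : ℝ := (1 + b * y) * Real.exp (-(a / y) - b * y)

theorem hasDerivAt_U (a b : ℝ) {y : ℝ} (hy : 0 < y) :
    HasDerivAt (U a b) (a * ((1 + b * y) / y ^ 2 * Real.exp (-(a / y) - b * y)) -
      b ^ 2 * (y * Real.exp (-(a / y) - b * y))) y := by
  have hy' : y ≠ 0 := hy.ne'
  have h1 : HasDerivAt (fun y : ℝ => 1 + b * y) b y := by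
    simpa using ((hasDerivAt_id y).const_mul b).const_add 1
  have h2 : HasDerivAt (fun y : ℝ => -(a / y) - b * y) (a / y ^ 2 - b) y := by
    have h3 : HasDerivAt (fun y : ℝ => a / y) (-(a / y ^ 2)) y := by
      have := (hasDerivAt_inv hy').const_mul a
      refine (this.congr_deriv ?_).congr_of_eventuallyEq ?_
      · ring
      · exact Eventually.of_forall fun z => div_eq_mul_inv a z
    have h4 : HasDerivAt (fun y : ℝ => b * y) b y := by
      simpa using (hasDerivAt_id y).const_mul b
    refine (h3.neg.sub h4).congr_deriv ?_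
    ring
  refine (h1.mul h2.exp).congr_deriv ?_
  field_simp
  ring

theorem tendsto_U_zero {a b : ℝ} (ha : 0 < a) (hb : 0 < b) :
    Tendsto (U a b) (𝓝[>] 0) (𝓝 0) := by
  have h1 : Tendsto (fun y : ℝ => (1 + b * y) * (2 * y ^ 2 / a ^ 2)) (𝓝[>] 0) (𝓝 0) := by
    have h2 : Continuous (fun y : ℝ => (1 + b * y) * (2 * y ^ 2 / a ^ 2)) := by fun_prop
    have h3 := h2.tendsto 0
    simp only [mul_zero, ne_eq, OfNat.ofNat_ne_zero, not_false_eq_true, zero_pow, zero_div] at h3
    exact h3.mono_left nhdsWithin_le_nhds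
  refine squeeze_zero' ?_ ?_ h1
  · filter_upwards [self_mem_nhdsWithin] with y hy
    have hy' : (0:ℝ) < y := hy
    unfold U
    positivity
  · filter_upwards [self_mem_nhdsWithin] with y hy
    have hy' : (0:ℝ) < y := hy
    unfold U
    refine mul_le_mul_of_nonneg_left ?_ (by positivity)
    rw [exp_split]
    refine (mul_le_of_le_one_right (Real.exp_pos _).le ?_).trans (exp_neg_div_le ha hy')
    exact Real.exp_le_one_iff.2 (by nlinarith)

theorem tendsto_U_atTop {a b : ℝ} (ha : 0 < a) (hb : 0 < b) :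
    Tendsto (U a b) atTop (𝓝 0) := by
  have h1 : Tendsto (fun y : ℝ => (b * y) ^ 0 * Real.exp (-(b * y)) +
      (b * y) ^ 1 * Real.exp (-(b * y))) atTop (𝓝 (0 + 0)) := by
    have hby : Tendsto (fun y : ℝ => b * y) atTop atTop := tendsto_id.const_mul_atTop hb
    exact ((Real.tendsto_pow_mul_exp_neg_atTop_nhds_zero 0).comp hby).add
      ((Real.tendsto_pow_mul_exp_neg_atTop_nhds_zero 1).comp hby)
  rw [add_zero] at h1
  refine squeeze_zero' ?_ ?_ h1
  · filter_upwards [eventually_gt_atTop 0] with y hy'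
    unfold U
    positivity
  · filter_upwards [eventually_gt_atTop 0] with y hy'
    unfold U
    rw [exp_split, pow_zero, pow_one]
    have h3 : Real.exp (-(a / y)) ≤ 1 := Real.exp_le_one_iff.2 (by
      have : 0 < a / y := div_pos ha hy'
      linarith)
    calc (1 + b * y) * (Real.exp (-(a / y)) * Real.exp (-(b * y)))
        ≤ (1 + b * y) * (1 * Real.exp (-(b * y))) := by gcongr
      _ = 1 * Real.exp (-(b * y)) + b * y * Real.exp (-(b * y)) := by ring

theorem thm : G_INT1 := by
  intro a b ha hb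
  have hg := integrable_g a ha hb
  have hf := integrable_f a ha hb
  refine ⟨hg, hf, ?_⟩
  have hU : ∀ y ∈ Ioi (0:ℝ), HasDerivAt (Function.update (U a b) 0 0)
      (a * ((1 + b * y) / y ^ 2 * Real.exp (-(a / y) - b * y)) -
      b ^ 2 * (y * Real.exp (-(a / y) - b * y))) y := by
    intro y hy
    have hy' : (0:ℝ) < y := hy
    refine (hasDerivAt_U a b hy').congr_of_eventuallyEq ?_
    filter_upwards [Ioi_mem_nhds hy'] with z hz
    exact Function.update_of_ne (ne_of_gt hz) _ _
  have hcont : ContinuousWithinAt (Function.update (U a b) 0 0) (Ici 0) 0 := by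
    rw [continuousWithinAt_update_same]
    have : (Ici (0:ℝ)) \ {0} = Ioi 0 := by
      ext y
      simp only [Set.mem_sdiff, mem_Ici, mem_singleton_iff, mem_Ioi]
      constructor
      · rintro ⟨h1, h2⟩
        exact lt_of_le_of_ne h1 (Ne.symm h2)
      · intro h
        exact ⟨h.le, h.ne'⟩
    rw [this]
    exact tendsto_U_zero ha hb
  have htop : Tendsto (Function.update (U a b) 0 0) atTop (𝓝 0) := by
    refine (tendsto_U_atTop ha hb).congr' ?_
    filter_upwards [eventually_gt_atTop 0] with z hz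
    exact (Function.update_of_ne (ne_of_gt hz) _ _).symm
  have h := integral_Ioi_of_hasDerivAt_of_tendsto hcont hU
    ((hg.const_mul a).sub (hf.const_mul (b ^ 2))) htop
  rw [Function.update_self, sub_zero, integral_sub (hg.const_mul a) (hf.const_mul (b ^ 2)),
    integral_const_mul, integral_const_mul] at h
  have ha' : a ≠ 0 := ha.ne'
  rw [div_mul_eq_mul_div, eq_div_iff ha']
  linarith

end EC237.PF.PkINT1
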