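import Pool.Agent.Helper70.EC_F.INT1

/-! Packet INT24 of MP_ecc237_nt, Part F: scaling and inversion. -/

set_option autoImplicit false

open MeasureTheory Filter Topology Set

namespace EC237.PF.PkINT24

theorem int2 : G_INT2 := by
  intro a b s ha hb hs
  have h := integral_comp_mul_left_Ioi
    (fun y : ℝ => (1 + b * y) / y ^ 2 * Real.exp (-(a / y) - b * y)) 0 hs
  rw [mul_zero, smul_eq_mul] at h
  have h2 : ∫ y in Ioi (0:ℝ), (1 + b * s * y) / y ^ 2 * Real.exp (-(a / s / y) - b * s * y) =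
      s ^ 2 * ∫ y in Ioi (0:ℝ), (1 + b * (s * y)) / (s * y) ^ 2 *
        Real.exp (-(a / (s * y)) - b * (s * y)) := by
    rw [← integral_const_mul]
    refine setIntegral_congr_fun measurableSet_Ioi fun y hy => ?_
    have hy' : (0:ℝ) < y := hy
    rw [div_div, ← mul_assoc b s y]
    field_simp
  rw [h2, h]
  field_simp

theorem exp_neg_div_le3 {c y : ℝ} (hc : 0 < c) (hy : 0 < y) :
    Real.exp (-(c / y)) ≤ 6 * y ^ 3 / c ^ 3 := by
  have h1 : 0 < c / y := div_pos hc hy
  have h3 : (c / y) ^ 3 / 6 ≤ Real.exp (c / y) := by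
    have := Real.pow_div_factorial_le_exp (c / y) h1.le 3
    simpa [Nat.factorial] using this
  have h4 : 0 < (c / y) ^ 3 / 6 := by positivity
  rw [Real.exp_neg, show 6 * y ^ 3 / c ^ 3 = ((c / y) ^ 3 / 6)⁻¹ by field_simp]
  exact inv_anti₀ h4 h3

theorem integrable_h {a b : ℝ} (ha : 0 < a) (hb : 0 < b) :
    IntegrableOn (fun y : ℝ => Real.exp (-(3 * a * y) - b / (3 * y)) / y ^ 3) (Ioi 0) := by
  have h0 : IntegrableOn (fun y : ℝ => (162 / b ^ 3) * (y ^ 0 * Real.exp (-(3 * a * y)))) (Ioi 0) :=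
    (PkINT1.integrable_pow 0 (b := 3 * a) (by positivity)).const_mul _
  refine Integrable.mono' h0 ?_ ?_
  · refine (ContinuousOn.div (Real.continuous_exp.comp_continuousOn ?_) (by fun_prop)
      fun y hy => ?_).aestronglyMeasurable measurableSet_Ioi
    · refine ContinuousOn.sub (by fun_prop) (continuousOn_const.div (by fun_prop) fun y hy => ?_)
      have : (0:ℝ) < y := hy
      positivity
    · have : (0:ℝ) < y := hy
      positivity
  · filter_upwards [ae_restrict_mem measurableSet_Ioi] with y hy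
    have hy' : (0:ℝ) < y := hy
    have h1 := exp_neg_div_le3 hb (show 0 < 3 * y by positivity)
    rw [Real.norm_eq_abs, abs_of_nonneg (by positivity), pow_zero, one_mul, sub_eq_add_neg,
      Real.exp_add]
    calc Real.exp (-(3 * a * y)) * Real.exp (-(b / (3 * y))) / y ^ 3
        ≤ Real.exp (-(3 * a * y)) * (6 * (3 * y) ^ 3 / b ^ 3) / y ^ 3 := by gcongr
      _ = 162 / b ^ 3 * Real.exp (-(3 * a * y)) := by
          field_simp
          ring

theorem int4 : G_INT4 := by
  intro a b ha hb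
  refine ⟨integrable_h ha hb, ?_⟩
  have h := integral_comp_rpow_Ioi (fun y : ℝ => y * Real.exp (-(a / y) - b * y))
    (p := -1) (by norm_num)
  have h2 := integral_comp_mul_left_Ioi
    (fun x : ℝ => Real.exp (-(a * x) - b / x) / x ^ 3) 0 (b := 3) (by norm_num)
  rw [mul_zero, smul_eq_mul] at h2
  have h3 : ∫ x in Ioi (0:ℝ), Real.exp (-(a * x) - b / x) / x ^ 3 =
      ∫ y in Ioi (0:ℝ), y * Real.exp (-(a / y) - b * y) := by
    rw [← h]
    refine setIntegral_congr_fun measurableSet_Ioi fun x hx => ?_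
    have hx' : (0:ℝ) < x := hx
    rw [abs_neg, abs_one, one_mul, smul_eq_mul, show (-1 - 1 : ℝ) = ((-2 : ℤ) : ℝ) by norm_num,
      Real.rpow_intCast, Real.rpow_neg_one, div_inv_eq_mul, ← div_eq_mul_inv b x]
    rw [zpow_neg, show ((2:ℤ)) = ((2:ℕ) : ℤ) by norm_num, zpow_natCast]
    field_simp
  have h4 : ∫ x in Ioi (0:ℝ), Real.exp (-(a * (3 * x)) - b / (3 * x)) / (3 * x) ^ 3 =
      1 / 27 * ∫ y in Ioi (0:ℝ), Real.exp (-(3 * a * y) - b / (3 * y)) / y ^ 3 := by
    rw [← integral_const_mul]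
    refine setIntegral_congr_fun measurableSet_Ioi fun x hx => ?_
    have hx' : (0:ℝ) < x := hx
    rw [show a * (3 * x) = 3 * a * x by ring]
    field_simp
    ring
  rw [h4, h3] at h2
  linarith

theorem thm : G_INT2 ∧ G_INT4 := ⟨int2, int4⟩

end EC237.PF.PkINT24
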